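import Pool.Agent.W394.BQN.Stm

/-!
# Decomposition of Laurent matrices (adaptation of `BQ.dec_mv`)
-/

set_option autoImplicit false

open Polynomial

noncomputable section

namespace Pool.Agent.W156.BQN

open BQ Pool.Agent.W394.BQN

/-- elements of `S2 W` lift (up to a factor in `S2 W`) to `S2 A` -/
theorem s2_cover {A W : Type} [CommRing A] [IsDomain A] [CommRing W] [IsDomain W] (q : A →+* W)
    (hq : Function.Surjective q) (b : W[X]) (hb : b ∈ S2 W) :
    ∃ h ∈ S2 A, ∃ e ∈ S2 W, h.map q = b * e := by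
  obtain ⟨k, b1, hbb, hb1, -, hb1e⟩ := S2.factor W b hb
  have hb1m : b1.Monic := hb1.1
  have hb10 : b1.coeff 0 = 1 := by rw [coeff_zero_eq_eval_zero, hb1e]
  set e2 : W[X] := b1 * (X + Polynomial.C 1) with he2
  have hme : e2.Monic := hb1m.mul (monic_X_add_C _)
  have hdeg : e2.natDegree = b1.natDegree + 1 := by
    rw [he2, hb1m.natDegree_mul (monic_X_add_C _), natDegree_X_add_C]
  have he0 : e2.coeff 0 = 1 := by
    rw [he2, mul_coeff_zero, hb10]
    simp
  have hlift : e2 ∈ lifts q := by
    rw [mem_lifts]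
    exact Polynomial.map_surjective q hq e2
  obtain ⟨h1, hh1, hh1d, hh1m⟩ := lifts_and_natDegree_eq_and_monic hlift hme
  set h2 : A[X] := h1 + Polynomial.C (1 - h1.coeff 0) with hh2
  have h2m : h2.Monic := by
    apply hh1m.add_of_left
    refine lt_of_le_of_lt degree_C_le ?_
    rw [← natDegree_pos_iff_degree_pos, hh1d, hdeg]
    omega
  have h20 : h2.coeff 0 = 1 := by rw [hh2, coeff_add, coeff_C_zero]; ring
  have h2map : h2.map q = e2 := by
    rw [hh2, Polynomial.map_add, hh1, Polynomial.map_C]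
    have : q (1 - h1.coeff 0) = 0 := by
      rw [map_sub, map_one, ← coeff_map, hh1, he0, sub_self]
    rw [this, map_zero, add_zero]
  have tr : ∀ (R : Type) [CommRing R] [IsDomain R] (g : R[X]), g.coeff 0 = 1 →
      g.trailingCoeff = 1 := by
    intro R _ _ g hg
    have : g.natTrailingDegree = 0 := by
      rw [natTrailingDegree_eq_zero]
      right
      rw [hg]; exact one_ne_zero
    rw [trailingCoeff, this, hg]
  refine ⟨X ^ k * h2, (S2 A).mul_mem ((S2 A).pow_mem (O.X_mem_S2 A) k) ⟨h2m, tr A h2 h20⟩,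
    X + Polynomial.C 1, ⟨monic_X_add_C _, tr W _ (by simp)⟩, ?_⟩
  rw [Polynomial.map_mul, Polynomial.map_pow, Polynomial.map_X, h2map, he2, hbb]
  ring

theorem exists_qq {A W : Type} [CommRing A] [IsDomain A] [CommRing W] [IsDomain W] (q : A →+* W)
    (hq : Function.Surjective q) : ∃ qq : VV A →+* VV W, Function.Surjective qq ∧
      ∀ f : A[X], qq (algebraMap A[X] (VV A) f) = algebraMap W[X] (VV W) (f.map q) := by
  have hmem : ∀ y ∈ S2 A, y.map q ∈ S2 W := by
    intro y hy
    obtain ⟨a, f0, hff, hf0, -, hf0e⟩ := S2.factor A y hy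
    have h0 : (f0.map q).coeff 0 = 1 := by
      rw [coeff_map, coeff_zero_eq_eval_zero, hf0e, map_one]
    rw [hff, Polynomial.map_mul, Polynomial.map_pow, Polynomial.map_X]
    refine (S2 W).mul_mem ((S2 W).pow_mem (O.X_mem_S2 W) a) ⟨Monic.map q hf0.1, ?_⟩
    have : (f0.map q).natTrailingDegree = 0 := by
      rw [natTrailingDegree_eq_zero]
      right
      rw [h0]; exact one_ne_zero
    rw [trailingCoeff, this, h0]
  have hunit : ∀ y : S2 A, IsUnit (((algebraMap W[X] (VV W)).comp (mapRingHom q)) y) := by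
    intro y
    exact IsLocalization.map_units (VV W) (⟨(y : A[X]).map q, hmem y y.2⟩ : S2 W)
  let qq : VV A →+* VV W := IsLocalization.lift (M := S2 A) hunit
  have hqq : ∀ f : A[X], qq (algebraMap A[X] (VV A) f)
      = algebraMap W[X] (VV W) (f.map q) := fun f => IsLocalization.lift_eq hunit f
  refine ⟨qq, ?_, hqq⟩
  intro z
  obtain ⟨⟨a, b⟩, hz⟩ := IsLocalization.surj (S2 W) z
  obtain ⟨h, hh, e, he, hhe⟩ := s2_cover q hq b.1 b.2
  obtain ⟨a', ha'⟩ := Polynomial.map_surjective q hq (a * e)
  refine ⟨IsLocalization.mk' (VV A) a' ⟨h, hh⟩, ?_⟩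
  have h1 : qq (IsLocalization.mk' (VV A) a' (⟨h, hh⟩ : S2 A)) * qq (algebraMap A[X] (VV A) h)
      = qq (algebraMap A[X] (VV A) a') := by
    rw [← map_mul]
    congr 1
    exact IsLocalization.mk'_spec (VV A) a' (⟨h, hh⟩ : S2 A)
  rw [hqq, hqq, ha', hhe, map_mul, map_mul] at h1
  have hub : IsUnit (algebraMap W[X] (VV W) b.1) := IsLocalization.map_units (VV W) b
  have hue : IsUnit (algebraMap W[X] (VV W) e) :=
    IsLocalization.map_units (VV W) (⟨e, he⟩ : S2 W)
  have hz' : z * algebraMap W[X] (VV W) b.1 = algebraMap W[X] (VV W) a := hz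
  rw [← hz'] at h1
  apply (hub.mul hue).mul_right_cancel
  rw [h1]
  ring

theorem dec_det_one (h1 : S_VV) (h2 : S_LIFT) (n : ℕ) (V : Type) [CommRing V] [IsDomain V]
    (hA : ∀ m, IdemFree (MvPolynomial (Fin m) V))
    (K : Type) [CommRing K] [IsDomain K] [IsPrincipalIdealRing K] (hE : E2T K)
    (q : V →+* K) (hq : Function.Surjective q) (s : ℕ)
    (γ γ' : Matrix (Fin s) (Fin s) (LaurentPolynomial (MvPolynomial (Fin n) K)))
    (hγ : γ * γ' = 1) (hdet : γ.det = 1) :
    ∃ (αL αL' : Matrix (Fin s) (Fin s) (LaurentPolynomial (MvPolynomial (Fin n) V)))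
      (β β' : Matrix (Fin s) (Fin s) (MvPolynomial (Fin n) K)[X]),
      αL * αL' = 1 ∧ β * β' = 1 ∧
      γ = αL.map (lmap (MvPolynomial.map q)) * β.map (Polynomial.toLaurent) := by
  obtain ⟨qq, hqq, hqqa⟩ := exists_qq q hq
  obtain ⟨κ, hκr, hκC', hκv⟩ := locRel_mv (RingHom.id K) (algebraMap K[X] (VV K))
    (locRel_base K) n
  have hκ := hκr.inj
  have hκC : ∀ k : K, κ (Polynomial.C (MvPolynomial.C k)) =
      MvPolynomial.C (algebraMap K[X] (VV K) (Polynomial.C k)) := by
    intro k
    have := hκC' (Polynomial.C k)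
    rwa [Polynomial.map_C] at this
  have hκX : κ X = MvPolynomial.C (algebraMap K[X] (VV K) X) := by
    have := hκC' X
    rwa [Polynomial.map_X] at this
  obtain ⟨ι, hι, hιC, hιX⟩ := locRel_mv (RingHom.id V) (algebraMap V[X] (VV V)) (locRel_base V) n
  have hιXX : ι X = MvPolynomial.C (algebraMap V[X] (VV V) X) := by
    have := hιC X
    rwa [Polynomial.map_X] at this
  have hcomm : ∀ f : (MvPolynomial (Fin n) V)[X],
      (MvPolynomial.map qq) (ι f) = κ (f.map (MvPolynomial.map q)) := by
    have h : (MvPolynomial.map qq).comp ι = κ.comp (mapRingHom (MvPolynomial.map q)) := by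
      apply Polynomial.ringHom_ext'
      · apply MvPolynomial.ringHom_ext
        · intro v
          show (MvPolynomial.map qq) (ι (Polynomial.C (MvPolynomial.C v)))
            = κ (mapRingHom (MvPolynomial.map q) (Polynomial.C (MvPolynomial.C v)))
          have h1 := hιC (Polynomial.C v)
          rw [Polynomial.map_C] at h1
          rw [h1, MvPolynomial.map_C, hqqa, coe_mapRingHom, Polynomial.map_C, Polynomial.map_C,
            MvPolynomial.map_C, hκC]
        · intro i
          show (MvPolynomial.map qq) (ι (Polynomial.C (MvPolynomial.X i)))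
            = κ (mapRingHom (MvPolynomial.map q) (Polynomial.C (MvPolynomial.X i)))
          rw [hιX, MvPolynomial.map_X, coe_mapRingHom, Polynomial.map_C, MvPolynomial.map_X, hκv]
      · show (MvPolynomial.map qq) (ι X) = κ (mapRingHom (MvPolynomial.map q) X)
        rw [hιXX, MvPolynomial.map_C, hqqa, coe_mapRingHom, Polynomial.map_X, Polynomial.map_X, hκX]
    intro f
    exact RingHom.congr_fun h f
  have hιu : IsUnit (ι X) := by
    have := hι.unit X (O.X_mem_S2 V)
    rwa [Polynomial.map_X] at this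
  have hκu : IsUnit (κ X) := by
    have := hιu.map (MvPolynomial.map qq)
    rwa [hcomm, Polynomial.map_X] at this
  obtain ⟨κL, hκL, hκLi⟩ := O.exists_lext κ hκ hκu
  obtain ⟨α, hαdet, hα⟩ := h2 n (VV V) (VV K) (h1 K hE) qq hqq s (γ.map κL) (by
    have := RingHom.map_det κL γ
    rw [hdet, map_one] at this
    exact this.symm)
  have h1 : α * α.adjugate = 1 := by rw [Matrix.mul_adjugate, hαdet, one_smul]
  have h2 : α.adjugate * α = 1 := by rw [Matrix.adjugate_mul, hαdet, one_smul]
  obtain ⟨f, hf, hfc⟩ := O.common_den hι (m := (Fin s × Fin s) ⊕ (Fin s × Fin s))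
    (Sum.elim (fun p => α p.1 p.2) (fun p => α.adjugate p.1 p.2))
  obtain ⟨a, f0, hff, hf0, -, hf0e⟩ := S2.factor V f hf
  set jj : V →+* MvPolynomial (Fin n) V :=
    (MvPolynomial.C : V →+* MvPolynomial (Fin n) V).comp (RingHom.id V) with hjj
  have hco : (-(f0.divX.map jj)) * X + 1 * (f0.map jj) = 1 := by
    have h0 : f0.coeff 0 = 1 := by rw [coeff_zero_eq_eval_zero, hf0e]
    have h3 : f0 = f0.divX * X + 1 := by
      conv_lhs => rw [← divX_mul_X_add f0, h0, map_one]
    have h4 : f0.map jj = f0.divX.map jj * X + 1 := by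
      conv_lhs => rw [h3]
      rw [Polynomial.map_add, Polynomial.map_mul, Polynomial.map_X, Polynomial.map_one]
    rw [h4]; ring
  have hpow : (X * f0.map jj) ^ (a + 1) = (f.map jj) * (X * (f0.map jj) ^ a) := by
    rw [hff, Polynomial.map_mul, Polynomial.map_pow, Polynomial.map_X]
    ring
  have den : ∀ (z : MvPolynomial (Fin n) (VV V)) (c : (MvPolynomial (Fin n) V)[X]),
      ι (f.map jj) * z = ι c →
      (ι (X * f0.map jj)) ^ (a + 1) * z = ι (X * (f0.map jj) ^ a * c) := by
    intro z c hz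
    rw [← map_pow, hpow, map_mul, mul_comm (ι (f.map jj)), mul_assoc, hz, ← map_mul]
  have hR : IdemFree (MvPolynomial (Fin n) V)[X] :=
    (hA (n + 1)).of_equiv (MvPolynomial.finSuccEquiv V n).toRingEquiv
  have hnt : Nontrivial (VV V) := (VV.dom V).toNontrivial
  choose c hc using hfc
  refine O.core (MvPolynomial.map q) ι κ (MvPolynomial.map qq) hι.inj hκ hcomm hιu hR (f0.map jj)
    (-(f0.divX.map jj)) hco γ γ' hγ κL hκL hκLi α α.adjugate h1 h2 hα
    ⟨a + 1, Matrix.of fun i j => X * (f0.map jj) ^ a * c (Sum.inl (i, j)), ?_⟩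
    ⟨a + 1, Matrix.of fun i j => X * (f0.map jj) ^ a * c (Sum.inr (i, j)), ?_⟩
  · refine Matrix.ext fun i j => ?_
    rw [Matrix.smul_apply, smul_eq_mul, Matrix.map_apply, Matrix.of_apply]
    exact den _ _ (hc (Sum.inl (i, j)))
  · refine Matrix.ext fun i j => ?_
    rw [Matrix.smul_apply, smul_eq_mul, Matrix.map_apply, Matrix.of_apply]
    exact den _ _ (hc (Sum.inr (i, j)))

theorem t_DEC (h1 : S_VV) (h2 : S_LIFT) : S_DEC := by
  intro n V _ _ hA K _ _ _ hE q hq s γ γ' hγ
  rcases s with _ | s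
  · exact dec_det_one h1 h2 n V hA K hE q hq 0 γ γ' hγ (Matrix.det_isEmpty)
  · obtain ⟨m, u, u', huu, hd⟩ := O.unit_form γ.det γ'.det (by
      rw [← Matrix.det_mul, hγ, Matrix.det_one])
    have hT : (LaurentPolynomial.T (-m) : LaurentPolynomial (MvPolynomial (Fin n) K))
        * LaurentPolynomial.T m = 1 := by
      rw [← LaurentPolynomial.T_add]; simp
    have hT' : (LaurentPolynomial.T m : LaurentPolynomial (MvPolynomial (Fin n) K))
        * LaurentPolynomial.T (-m) = 1 := by
      rw [← LaurentPolynomial.T_add]; simp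
    have hTA : (LaurentPolynomial.T (-m) : LaurentPolynomial (MvPolynomial (Fin n) V))
        * LaurentPolynomial.T m = 1 := by
      rw [← LaurentPolynomial.T_add]; simp
    have huu' : u' * u = 1 := by rw [mul_comm]; exact huu
    have hU : toLaurent u * toLaurent u' = 1 := by rw [← map_mul, huu, map_one]
    have hU' : toLaurent u' * toLaurent u = 1 := by rw [← map_mul, huu', map_one]
    obtain ⟨αL, αL', β, β', ha, hb, he⟩ := dec_det_one h1 h2 n V hA K hE q hq (s + 1)
      (O.dg s (LaurentPolynomial.T m) * γ * O.dg s (toLaurent u))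
      (O.dg s (toLaurent u') * γ' * O.dg s (LaurentPolynomial.T (-m)))
      (by
        calc O.dg s (LaurentPolynomial.T m) * γ * O.dg s (toLaurent u) *
            (O.dg s (toLaurent u') * γ' * O.dg s (LaurentPolynomial.T (-m)))
            = O.dg s (LaurentPolynomial.T m) * (γ * ((O.dg s (toLaurent u) *
              O.dg s (toLaurent u')) * γ')) * O.dg s (LaurentPolynomial.T (-m)) := by
              simp only [Matrix.mul_assoc]
          _ = 1 := by
              rw [O.dg_mul, hU, O.dg_one, Matrix.one_mul, hγ, Matrix.mul_one, O.dg_mul, hT',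
                O.dg_one])
      (by
        rw [Matrix.det_mul, Matrix.det_mul, O.dg_det, O.dg_det, ← hd]
        ring)
    refine ⟨O.dg s (LaurentPolynomial.T (-m)) * αL, αL' * O.dg s (LaurentPolynomial.T m),
      β * O.dg s u', O.dg s u * β', ?_, ?_, ?_⟩
    · calc O.dg s (LaurentPolynomial.T (-m)) * αL * (αL' * O.dg s (LaurentPolynomial.T m))
          = O.dg s (LaurentPolynomial.T (-m)) * (αL * αL') * O.dg s (LaurentPolynomial.T m) := by
            simp only [Matrix.mul_assoc]
        _ = 1 := by rw [ha, Matrix.mul_one, O.dg_mul, hTA, O.dg_one]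
    · calc β * O.dg s u' * (O.dg s u * β') = β * (O.dg s u' * O.dg s u) * β' := by
            simp only [Matrix.mul_assoc]
        _ = 1 := by rw [O.dg_mul, huu', O.dg_one, Matrix.mul_one, hb]
    · rw [Matrix.map_mul, Matrix.map_mul]
      rw [show (O.dg s (LaurentPolynomial.T (-m)) : Matrix (Fin (s + 1)) (Fin (s + 1))
        (LaurentPolynomial (MvPolynomial (Fin n) V))).map (lmap (MvPolynomial.map q))
          = O.dg s (LaurentPolynomial.T (-m)) by rw [O.dg_map, O.lmap_T]]
      rw [O.dg_map]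
      calc γ = (O.dg s (LaurentPolynomial.T (-m)) * O.dg s (LaurentPolynomial.T m)) * γ *
            (O.dg s (toLaurent u) * O.dg s (toLaurent u')) := by
            rw [O.dg_mul, O.dg_mul, hT, hU, O.dg_one, Matrix.one_mul, Matrix.mul_one]
        _ = O.dg s (LaurentPolynomial.T (-m)) * (O.dg s (LaurentPolynomial.T m) * γ *
            O.dg s (toLaurent u)) * O.dg s (toLaurent u') := by simp only [Matrix.mul_assoc]
        _ = _ := by rw [he]; simp only [Matrix.mul_assoc]

end Pool.Agent.W156.BQN
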